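import Mathlib
import Pool.Agent.H44.RittDefs
import Pool.Agent.H44.RittG

set_option autoImplicit false

namespace Pool.Agent.Results.MP_e7950b_an.Ritt

open Pool.Agent.H44.RittDefs

/-- Full answer to Q1: every symmetric probability measure on `ℤ` which is non-increasing on `ℕ`
has the Ritt property, and `n ‖μ^{*n} - μ^{*(n+1)}‖ ≤ 648` for all `n ≥ 1`. -/
theorem result (μ : ℤ → ℝ) (h : IsSymmNonincProb μ) : RittWith μ 648 :=
  Pool.Agent.H44.Ritt.ritt h

end Pool.Agent.Results.MP_e7950b_an.Ritt
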