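import Mathlib
import Pool.Agent.H44.RittDefs
import Pool.Agent.H44.RittG

set_option autoImplicit false

namespace Pool.Agent.Results.MP_e7950b_an.WeakMax

open Pool.Agent.H44.RittDefs

/-- Full answer to Q2: every symmetric probability measure on `ℤ` which is non-increasing on `ℕ`
satisfies the weak type maximal inequality of every order `m`, with a constant that depends
only on `m`. -/
theorem result (μ : ℤ → ℝ) (h : IsSymmNonincProb μ) (m : ℕ) :
    WeakTypeWith μ m (4 * (648 * (m : ℝ) + 1) ^ m) :=
  Pool.Agent.H44.Ritt.weak_type h m

end Pool.Agent.Results.MP_e7950b_an.WeakMax
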